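import Pool.Agent.Q23.RC.Stm

/-!
# Project RC (helper23), job FOL: Foelner vectors in the regular representation
-/

set_option autoImplicit false
set_option linter.unusedSectionVars false

namespace Pool.Agent.Q153.RC.FOL

open Pool.Agent.Q23.RC
open Pool.Agent.H919R4.ZS (L2)
open Pool.Agent.Q169.PT (Rep reg)
open Pool.Agent.Q169.PT.Pub (Amenable)

noncomputable section

theorem reg_apply {G : Type} [Group G] (g : G) (f : L2 G) (h : G) : (reg G).hom g f h = f (g⁻¹ * h) := rfl

section

variable {G : Type} [Group G] [DecidableEq G]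

/-- delta functions -/
def dl (x : G) : L2 G := (lp.single 2 x (1 : ℂ) : lp (fun _ : G => ℂ) 2)

lemma dl_apply (x y : G) : dl x y = if y = x then (1 : ℂ) else 0 := by
  unfold dl
  rw [lp.single_apply, Pi.single_apply]

lemma reg_dl (g x : G) : (reg G).hom g (dl x) = dl (g * x) := by
  ext y
  rw [reg_apply, dl_apply, dl_apply]
  simp only [inv_mul_eq_iff_eq_mul]

lemma inner_dl (x : G) (f : L2 G) : inner ℂ (dl x) f = f x := by
  unfold dl
  rw [lp.inner_single_left]
  simp

end

theorem fol : S_fol := by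
  intro G _ A hA S ε hε
  classical
  obtain ⟨F, hF0, hF⟩ := hA S (ε ^ 2 / 2) (by positivity)
  obtain ⟨e, he⟩ : ∃ e : L2 G, e = ∑ x ∈ F, dl (x : G) := ⟨_, rfl⟩
  have hea : ∀ y : G, e y = ∑ x ∈ F, if y = (x : G) then (1 : ℂ) else 0 := by
    intro y
    rw [he, lp.coeFn_sum, Finset.sum_apply]
    exact Finset.sum_congr rfl fun x _ => dl_apply _ _
  have hin : ∀ s : A, inner ℂ ((reg G).hom (s : G) e) e = (((F.filter fun x => s * x ∈ F).card : ℝ) : ℂ) := by
    intro s
    have h1 : (reg G).hom (s : G) e = ∑ x ∈ F, dl ((s : G) * x) := by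
      rw [he, map_sum]
      exact Finset.sum_congr rfl fun x _ => reg_dl _ _
    rw [h1, sum_inner, Finset.card_filter]
    push_cast
    refine Finset.sum_congr rfl fun x _ => ?_
    rw [inner_dl, hea]
    have h2 : ∀ x' : A, ((s : G) * x = (x' : G)) ↔ s * x = x' := fun x' => by
      rw [← Subgroup.coe_mul, Subtype.coe_inj]
    simp only [h2]
    rw [Finset.sum_ite_eq]
    split_ifs <;> simp
  have hn : ‖e‖ ^ 2 = F.card := by
    have h1 := hin 1
    rw [Subgroup.coe_one, map_one] at h1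
    have h2 : (1 : L2 G →L[ℂ] L2 G) e = e := rfl
    rw [h2, inner_self_eq_norm_sq_to_K] at h1
    have h3 : (F.filter fun x => 1 * x ∈ F) = F := by
      ext x
      simp
    rw [h3] at h1
    have h4 : ((‖e‖ ^ 2 : ℝ) : ℂ) = ((F.card : ℝ) : ℂ) := by
      rw [← h1, Complex.ofReal_pow]
      rfl
    exact Complex.ofReal_injective h4
  have hF1 : (0 : ℝ) < F.card := by exact_mod_cast Finset.card_pos.2 hF0
  have hen : ‖e‖ = Real.sqrt F.card := by
    rw [← hn, Real.sqrt_sq (norm_nonneg _)]
  have hsq : 0 < Real.sqrt F.card := Real.sqrt_pos.2 hF1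
  refine ⟨(((Real.sqrt F.card)⁻¹ : ℝ) : ℂ) • e, fun x hx => ?_, ?_, fun s hs => ?_⟩
  · rw [lp.coeFn_smul, Pi.smul_apply, hea, Finset.sum_eq_zero, smul_zero]
    intro y _
    rw [if_neg]
    rintro rfl
    exact hx y.2
  · rw [norm_smul, Complex.norm_real, Real.norm_of_nonneg (inv_nonneg.2 hsq.le), hen,
      inv_mul_cancel₀ hsq.ne']
  · rw [map_smul, ← smul_sub, norm_smul, Complex.norm_real, Real.norm_of_nonneg (inv_nonneg.2 hsq.le)]
    have h1 : ‖(reg G).hom (s : G) e - e‖ ^ 2 ≤ (ε * Real.sqrt F.card) ^ 2 := by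
      rw [@norm_sub_sq ℂ, hin s, (reg G).norm, hn, mul_pow, Real.sq_sqrt hF1.le]
      have h2 := hF s hs
      have h3 : ({x | x ∈ F ∧ s * x ∉ F} : Set A) = ((F.filter fun x => s * x ∉ F : Finset A) : Set A) := by
        ext x
        simp
      rw [h3, Set.ncard_coe_finset] at h2
      have h4 : (F.filter fun x => s * x ∈ F).card + (F.filter fun x => s * x ∉ F).card = F.card :=
        Finset.card_filter_add_card_filter_not _
      have h5 : ((F.filter fun x => s * x ∈ F).card : ℝ) + ((F.filter fun x => s * x ∉ F).card : ℝ) = F.card := by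
        exact_mod_cast h4
      have h6 : RCLike.re ((((F.filter fun x => s * x ∈ F).card : ℝ) : ℂ)) = ((F.filter fun x => s * x ∈ F).card : ℝ) :=
        Complex.ofReal_re _
      rw [h6]
      linarith
    have h2 := abs_le_of_sq_le_sq' h1 (by positivity)
    calc (Real.sqrt F.card)⁻¹ * ‖(reg G).hom (s : G) e - e‖ ≤ (Real.sqrt F.card)⁻¹ * (ε * Real.sqrt F.card) :=
          mul_le_mul_of_nonneg_left h2.2 (inv_nonneg.2 hsq.le)
      _ = ε := by field_simp

end

end Pool.Agent.Q153.RC.FOL
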