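import Pool.Agent.Q23.RC.Stm

/-!
# Project RC (helper23), job PSI: cocycles and invariant vectors in the regular representation
-/

set_option autoImplicit false

open scoped Matrix

namespace Pool.Agent.Q153.RC.PSI

open Pool.Agent.Q23.RC
open Pool.Agent.H919R4.ZS (L2)
open Pool.Agent.Q169.PT (Rep IsCoc Van1 reg)

noncomputable section

theorem psi : S_psi := by
  intro G _ P hinf b0 hV φ hφ hd hp
  classical
  -- well-defined
  have W1 : ∀ y y', P.ev y = P.ev y' → φ y = φ y' := by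
    intro y y' h
    have h1 : P.ev (y - y') = 0 := by rw [map_sub, h, sub_self]
    obtain ⟨z, hz⟩ := (P.ker _).1 h1
    have h2 : φ (y - y') = 0 := by rw [← hp, ← hz, hd]
    rw [map_sub] at h2
    exact sub_eq_zero.1 h2
  obtain ⟨e₀, he₀⟩ : ∃ e₀ : Cos P.H, e₀ = ⟨b0, (QuotientGroup.mk (1 : G) : G ⧸ P.H b0)⟩ := ⟨_, rfl⟩
  have hY : ∀ e : Cos P.H, ∃ y, P.ev y = Finsupp.single e (1 : ℂ) - Finsupp.single e₀ 1 := by
    intro e
    refine (P.range _).1 ?_
    rw [Finsupp.sum_sub_index (fun _ _ _ => rfl), Finsupp.sum_single_index rfl, Finsupp.sum_single_index rfl,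
      sub_self]
  choose Y hY using hY
  -- equivariance
  have W2 : ∀ (g : G) y y', P.ev y' = (P.ev y).mapDomain (fun e => g • e) → φ y' = (reg G).hom g (φ y) := by
    intro g y y' h
    have h1 := P.smul y g⁻¹
    rw [inv_inv] at h1
    have hw : (P.w g⁻¹ : ℤ) * (P.w g⁻¹ : ℤ) = 1 := by
      rw [← Units.val_mul, Int.units_mul_self, Units.val_one]
    have h2 : P.ev ((P.w g⁻¹ : ℤ) • fun j => y j * MonoidAlgebra.single g⁻¹ 1) = P.ev y' := by
      rw [map_zsmul, h1, ← h, smul_smul, hw, one_smul]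
    rw [← W1 _ _ h2, map_zsmul, hφ.mul y g⁻¹, inv_inv, smul_smul, hw, one_smul]
  -- the relation
  have W3 : ∀ (g : G) (e : Cos P.H), φ (Y (g • e)) = (reg G).hom g (φ (Y e)) + φ (Y (g • e₀)) := by
    intro g e
    have h1 : P.ev (Y (g • e) - Y (g • e₀)) = (P.ev (Y e)).mapDomain (fun e => g • e) := by
      rw [map_sub, hY, hY, hY, sub_sub_sub_cancel_right, sub_eq_add_neg (Finsupp.single e (1 : ℂ)),
        Finsupp.mapDomain_add, Finsupp.mapDomain_single, ← Finsupp.single_neg, Finsupp.mapDomain_single,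
        Finsupp.single_neg, ← sub_eq_add_neg]
    have h2 := W2 g _ _ h1
    rw [map_sub] at h2
    rw [← h2]
    abel
  -- the cocycle
  obtain ⟨v, hv⟩ := hV (fun g => φ (Y (g • e₀))) (by
    intro g h
    simp only
    rw [mul_smul, W3]
    abel)
  have hv' : ∀ g : G, φ (Y (g • e₀)) = (reg G).hom g v - v := hv
  have W4 : ∀ (g : G) (e : Cos P.H), φ (Y (g • e)) + v = (reg G).hom g (φ (Y e) + v) := by
    intro g e
    rw [W3, hv', map_add]
    abel
  -- invariant vectors vanish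
  have W5 : ∀ e : Cos P.H, φ (Y e) + v = 0 := by
    rintro ⟨a, c⟩
    obtain ⟨x, rfl⟩ := QuotientGroup.mk_surjective c
    have := hinf a
    obtain ⟨F, hF⟩ : ∃ F : L2 G, F = φ (Y ⟨a, QuotientGroup.mk x⟩) + v := ⟨_, rfl⟩
    rw [← hF]
    have hfix : ∀ h : P.H a, (reg G).hom (x * h * x⁻¹) F = F := by
      intro h
      have h1 : (x * h * x⁻¹ : G) • (⟨a, (QuotientGroup.mk x : G ⧸ P.H a)⟩ : Cos P.H) = ⟨a, QuotientGroup.mk x⟩ := by
        refine Sigma.ext rfl (heq_of_eq ?_)
        show (QuotientGroup.mk ((x * h * x⁻¹ : G) * x) : G ⧸ P.H a) = QuotientGroup.mk x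
        rw [QuotientGroup.eq]
        have h2 : ((x * h * x⁻¹ : G) * x)⁻¹ * x = (h : G)⁻¹ := by group
        rw [h2]
        exact inv_mem h.2
      rw [hF, ← W4, h1]
    ext y
    have hk : Function.Injective (fun h : P.H a => (x * (h : G) * x⁻¹)⁻¹ * y) := by
      intro h h' hh
      have h1 : (x * (h : G) * x⁻¹)⁻¹ = (x * (h' : G) * x⁻¹)⁻¹ := mul_right_cancel hh
      have h2 := mul_right_cancel (inv_injective h1)
      exact Subtype.ext (mul_left_cancel h2)
    have h3 := (Pool.Agent.H919R4.ZS.tendsto_cofinite F).comp hk.tendsto_cofinite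
    have h4 : ((fun h => F h) ∘ fun h : P.H a => (x * (h : G) * x⁻¹)⁻¹ * y) = fun _ => F y := by
      funext h
      have h5 := congrArg (fun f : L2 G => f y) (hfix h)
      exact h5
    rw [h4] at h3
    exact tendsto_nhds_unique tendsto_const_nhds h3
  have hv0 : v = 0 := by
    have h1 := W5 e₀
    have h2 : φ (Y e₀) = φ 0 := W1 _ _ (by rw [hY, sub_self, map_zero])
    rwa [h2, map_zero, zero_add] at h1
  have hβ : ∀ e : Cos P.H, φ (Y e) = 0 := by
    intro e
    have h1 := W5 e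
    rwa [hv0, add_zero] at h1
  intro y
  have h1 : P.ev (∑ e ∈ (P.ev y).support, (P.ev y) e • Y e) = P.ev y := by
    have h2 : ∑ e ∈ (P.ev y).support, (P.ev y) e = 0 := (P.range (P.ev y)).2 ⟨y, rfl⟩
    have h3 : ∑ e ∈ (P.ev y).support, Finsupp.single e ((P.ev y) e) = P.ev y := Finsupp.sum_single (P.ev y)
    rw [map_sum]
    have h4 : ∀ e ∈ (P.ev y).support, P.ev ((P.ev y) e • Y e) =
        Finsupp.single e ((P.ev y) e) - (P.ev y) e • Finsupp.single e₀ (1 : ℂ) := by
      intro e _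
      rw [map_smul, hY, smul_sub, Finsupp.smul_single, smul_eq_mul, mul_one]
    rw [Finset.sum_congr rfl h4, Finset.sum_sub_distrib, ← Finset.sum_smul, h2, zero_smul, sub_zero, h3]
  rw [← W1 _ _ h1, map_sum]
  refine Finset.sum_eq_zero fun e _ => ?_
  rw [hφ.smul, hβ, smul_zero]

end

end Pool.Agent.Q153.RC.PSI
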